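import Pool.Agent.H715.TW.Stm

/-!
# TW GEN: the points with `x ∈ □ ∪ -2□` are the multiples of `P0`
(port of `Pool.Graph.R_seed8.H528R2.Descent`)
-/

set_option autoImplicit false

namespace Pool.Agent.H686.TW

open Pool.Agent.H715.TW

namespace Gen

/-- the two quartics -/
def KK (k k' : ℤ) : Prop := k = 1 ∧ k' = 2048 ∨ k = -2 ∧ k' = -1024

/-- the points with coordinates given by `k, a, d` -/
def Good (M : ℤ) : Prop := ∀ k k' a d w : ℤ, KK k k' → 0 < a → 0 < d →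
  0 < w → IsCoprime a d → w ^ 2 = k * a ^ 4 + 105 * a ^ 2 * d ^ 2 + k' * d ^ 4 → a ≤ M → d ≤ M →
  ∀ Q : Pt, Q ≠ 0 → ptX Q = k * a ^ 2 / d ^ 2 → ∃ n : ℤ, Q = n • P0

theorem KK.ne {k k' : ℤ} (h : KK k k') : (k : ℚ) ≠ 0 := by
  rcases h with ⟨rfl, rfl⟩ | ⟨rfl, rfl⟩ <;> norm_num

theorem KK.mul {k k' : ℤ} (h : KK k k') : (k : ℚ) * k' = 2048 := by
  rcases h with ⟨rfl, rfl⟩ | ⟨rfl, rfl⟩ <;> norm_num

/-- doubling -/
theorem halve_pt (H1 : S_HALVE) (H2 : S_HALVEH) {a d w : ℤ} (ha : 0 < a) (hd : 0 < d) (hw : 0 < w)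
    (hcad : IsCoprime a d)
    (h : w ^ 2 = a ^ 4 + 105 * a ^ 2 * d ^ 2 + 2048 * d ^ 4) {Q : Pt} (hQ : Q ≠ 0)
    (hX : ptX Q = a ^ 2 / d ^ 2) :
    ∃ k k' A B v : ℤ, KK k k' ∧ 0 < A ∧ 0 < B ∧ 0 < v ∧
      IsCoprime A B ∧ v ^ 2 = k * A ^ 4 + 105 * A ^ 2 * B ^ 2 + k' * B ^ 4 ∧
      (∀ M, a ≤ M → d ≤ M → A ^ 4 ≤ 8192 * M ∧ B ^ 4 ≤ 8192 * M) ∧
      ∃ Q' : Pt, Q' ≠ 0 ∧ ptX Q' = k * A ^ 2 / B ^ 2 ∧ (Q = Q' + Q' ∨ Q = -(Q' + Q')) := by
  obtain ⟨k, k', A, B, v, c, hk, hA, hB, hv, hAB, h1, hc, hc', h2, h3⟩ := H1 a d w ha hd hw hcad h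
  refine ⟨k, k', A, B, v, hk, hA, hB, hv, hAB, h1,
    fun M haM hdM => H2 a d k k' A B v c M ha hd hk hA hB hv h1 hc hc' h2 h3 haM hdM, ?_⟩
  have hk0 : (k : ℚ) ≠ 0 := KK.ne hk
  have hkk : (k : ℚ) * k' = 2048 := KK.mul hk
  have hA' : (0 : ℚ) < A := by exact_mod_cast hA
  have hB' : (0 : ℚ) < B := by exact_mod_cast hB
  have hv' : (0 : ℚ) < v := by exact_mod_cast hv
  have ha' : (0 : ℚ) < a := by exact_mod_cast ha
  have hd' : (0 : ℚ) < d := by exact_mod_cast hd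
  have hc0 : (0 : ℚ) < c := by exact_mod_cast hc
  have h1' : (v : ℚ) ^ 2 = k * A ^ 4 + 105 * A ^ 2 * B ^ 2 + k' * B ^ 4 := by exact_mod_cast h1
  have h2' : (2 : ℚ) * A * B * v = c * d := by exact_mod_cast h2
  have h3' : ((k : ℚ) * A ^ 4 - k' * B ^ 4) ^ 2 = (c * a) ^ 2 := by
    rcases h3 with h3 | h3
    · have : (k : ℚ) * A ^ 4 - k' * B ^ 4 = c * a := by exact_mod_cast h3
      rw [this]
    · have : (k : ℚ) * A ^ 4 - k' * B ^ 4 = -(c * a) := by exact_mod_cast h3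
      rw [this]; ring
  obtain ⟨Q', hQ', hX', hY'⟩ := exists_pt (z := (k : ℚ) * A ^ 2 / B ^ 2) (y := k * A * v / B ^ 3)
    (by
      field_simp
      rw [h1']
      linear_combination (B : ℚ) ^ 4 * hkk)
  refine ⟨Q', hQ', hX', ?_⟩
  have hYne : ptY Q' ≠ 0 := by
    rw [hY']
    exact div_ne_zero (mul_ne_zero (mul_ne_zero hk0 hA'.ne') hv'.ne') (by positivity)
  obtain ⟨hd1, -, hd3, -⟩ := pt_dbl hQ' hYne
  have hXX : ptX (Q' + Q') = ptX Q := by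
    rw [hd3, hX, hX', hY']
    have e1 : (((k : ℚ) * A ^ 2 / B ^ 2) ^ 2 - 2048) / (2 * (k * A * v / B ^ 3)) =
        (k * A ^ 4 - k' * B ^ 4) / (2 * A * B * v) := by
      field_simp
      linear_combination ((B : ℚ) ^ 4) * hkk
    rw [e1, h2', div_pow, h3']
    field_simp
  rcases (ptX_eq_iff hQ hd1).1 hXX.symm with h | h
  · exact Or.inl h
  · exact Or.inr h

theorem X0 : ptX P0 = -32 := rfl
theorem P0_ne0 : P0 ≠ 0 := WeierstrassCurve.Affine.Point.some_ne_zero _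

/-- the third point of the line through `Q` and `R` -/
theorem third {Q R : Pt} (hQ : Q ≠ 0) (hR : R ≠ 0) (h : ptX Q ≠ ptX R) :
    ∃ ν : ℚ, ptX Q * ptX R * ptX (Q + R) = ν ^ 2 := by
  obtain ⟨-, h2, -⟩ := pt_add hQ hR h
  have e1 := pt_eq hQ
  have e2 := pt_eq hR
  refine ⟨ptY Q - (ptY Q - ptY R) / (ptX Q - ptX R) * ptX Q, ?_⟩
  rw [h2]
  have hne : ptX Q - ptX R ≠ 0 := sub_ne_zero.2 h
  generalize ptX Q = x at *
  generalize ptX R = x' at *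
  generalize ptY Q = y at *
  generalize ptY R = y' at *
  field_simp
  linear_combination (x - x') * x' * e1 - (x - x') * x * e2

/-- rational squares in lowest terms -/
theorem exists_frac {t z : ℚ} (hz : z ≠ 0) (h : z = t ^ 2) :
    ∃ p q : ℤ, 0 < p ∧ 0 < q ∧ IsCoprime p q ∧ z = (p : ℚ) ^ 2 / (q : ℚ) ^ 2 := by
  have ht : t ≠ 0 := by rintro rfl; apply hz; rw [h]; norm_num
  refine ⟨|t.num|, t.den, abs_pos.2 (Rat.num_ne_zero.2 ht), by exact_mod_cast t.den_pos, ?_, ?_⟩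
  · have h1 := t.reduced
    rw [Int.isCoprime_iff_gcd_eq_one, Int.gcd_eq_natAbs, Int.natAbs_abs, Int.natAbs_natCast]
    exact h1
  · have h2 : ((|t.num| : ℤ) : ℚ) ^ 2 = (t.num : ℚ) ^ 2 := by
      rw [Int.cast_abs, sq_abs]
    rw [h2, h, ← div_pow]
    congr 1
    have := Rat.num_div_den t
    push_cast
    exact this.symm

theorem exists_w {k k' a d : ℤ} (hk : KK k k') (ha : 0 < a) (hd : 0 < d)
    {Q : Pt} (hQ : Q ≠ 0) (hX : ptX Q = k * a ^ 2 / d ^ 2) :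
    ∃ w : ℤ, 0 < w ∧ w ^ 2 = k * a ^ 4 + 105 * a ^ 2 * d ^ 2 + k' * d ^ 4 := by
  have hk0 : (k : ℚ) ≠ 0 := KK.ne hk
  have hkk : (k : ℚ) * k' = 2048 := KK.mul hk
  have ha' : (0 : ℚ) < a := by exact_mod_cast ha
  have hd' : (0 : ℚ) < d := by exact_mod_cast hd
  have e := pt_eq hQ
  have hY : ptY Q ≠ 0 := by
    intro h0
    have h1 := (ptY_eq_zero_iff hQ).1 h0
    rw [hX] at h1
    have : (k : ℚ) * a ^ 2 / d ^ 2 ≠ 0 :=
      div_ne_zero (mul_ne_zero hk0 (by positivity)) (by positivity)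
    exact this h1
  rw [hX] at e
  set t : ℚ := ptY Q * d ^ 3 / (k * a) with ht
  have ht0 : t ≠ 0 := div_ne_zero (mul_ne_zero hY (by positivity)) (mul_ne_zero hk0 ha'.ne')
  have h1 : t ^ 2 = ((k * a ^ 4 + 105 * a ^ 2 * d ^ 2 + k' * d ^ 4 : ℤ) : ℚ) := by
    have : t ^ 2 = ptY Q ^ 2 * d ^ 6 / (k ^ 2 * a ^ 2) := by rw [ht]; field_simp
    rw [this, e]
    push_cast
    field_simp
    linear_combination (-(d : ℚ) ^ 4) * hkk
  have h2 : IsSquare (k * a ^ 4 + 105 * a ^ 2 * d ^ 2 + k' * d ^ 4) := by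
    rw [← Rat.isSquare_intCast_iff]
    exact ⟨t, by rw [← h1]; ring⟩
  obtain ⟨u, hu⟩ := h2
  refine ⟨|u|, ?_, ?_⟩
  · rw [abs_pos]
    rintro rfl
    rw [hu] at h1
    simp at h1
    exact ht0 h1
  · rw [sq_abs, hu]; ring

theorem ne_32 {a d : ℤ} (hd : 0 < d) (hcad : IsCoprime a d) : a ^ 2 ≠ 32 * d ^ 2 := by
  intro h
  have h1 : d ∣ a ^ 2 := ⟨32 * d, by rw [h]; ring⟩
  have h2 : IsCoprime (a ^ 2) d := hcad.pow_left
  have h3 : IsUnit d := h2.isUnit_of_dvd' h1 dvd_rfl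
  have h4 : d = 1 := by
    rcases Int.isUnit_iff.1 h3 with h5 | h5
    · exact h5
    · omega
  subst h4
  have h5 : a < 6 := by nlinarith
  have h6 : -6 < a := by nlinarith
  interval_cases a <;> omega

/-- translation by `± P0` -/
theorem trans_pt (H3 : S_TRANSH) {a d w M : ℤ} (ha : 0 < a) (hd : 0 < d) (hcad : IsCoprime a d)
    (h : w ^ 2 = -2 * a ^ 4 + 105 * a ^ 2 * d ^ 2 - 1024 * d ^ 4) (hne : a ≠ 4 * d) (haM : a ≤ M)
    (hdM : d ≤ M) {Q : Pt} (hQ : Q ≠ 0) (hX : ptX Q = -2 * a ^ 2 / d ^ 2) :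
    ∃ R : Pt, R ≠ 0 ∧ (R = Q + P0 ∨ R = Q - P0) ∧ ∃ p q : ℤ, 0 < p ∧ 0 < q ∧ IsCoprime p q ∧
      ptX R = (p : ℚ) ^ 2 / (q : ℚ) ^ 2 ∧ p ≤ 8 * M ∧ q ≤ 8 * M := by
  have ha' : (0 : ℚ) < a := by exact_mod_cast ha
  have hd' : (0 : ℚ) < d := by exact_mod_cast hd
  have hXne : ptX Q ≠ ptX P0 := by
    rw [hX, X0]
    intro h1
    have h2 : (a : ℚ) ^ 2 = (4 * d) ^ 2 := by
      field_simp at h1
      linarith
    have h3 : (a : ℚ) = 4 * d := (pow_left_inj₀ ha'.le (by positivity) two_ne_zero).1 h2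
    exact hne (by exact_mod_cast h3)
  have hXne' : ptX Q ≠ ptX (-P0) := by rwa [ptX_neg]
  have hP0' : -P0 ≠ 0 := neg_ne_zero.2 P0_ne0
  have hR1 : Q + P0 ≠ 0 := (pt_add hQ P0_ne0 hXne).1
  have hR2 : Q - P0 ≠ 0 := by rw [sub_eq_add_neg]; exact (pt_add hQ hP0' hXne').1
  have had : (a : ℚ) ^ 2 - 16 * d ^ 2 ≠ 0 := by
    intro h1
    apply hXne
    rw [hX, X0]
    field_simp
    linarith
  have hprod := pt_prod hQ P0_ne0 hXne
  have hsum := pt_sum hQ P0_ne0 hXne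
  rw [X0, hX] at hprod hsum
  have e5 : (-2 * (a : ℚ) ^ 2 / d ^ 2 - -32) = -2 * (a ^ 2 - 16 * d ^ 2) / d ^ 2 := by
    field_simp; ring
  have hprod' : ptX (Q + P0) * ptX (Q - P0) =
      (32 * (a ^ 2 - 32 * d ^ 2) / (a ^ 2 - 16 * d ^ 2)) ^ 2 := by
    rw [hprod, e5]
    have e6 : (-2 * (a : ℚ) ^ 2 / d ^ 2 * -32 - 2048) = 64 * (a ^ 2 - 32 * d ^ 2) / d ^ 2 := by
      field_simp; ring
    rw [e6, div_div_div_cancel_right₀ (by positivity)]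
    have e7 : (64 * ((a : ℚ) ^ 2 - 32 * d ^ 2)) / (-2 * (a ^ 2 - 16 * d ^ 2)) =
        -(32 * (a ^ 2 - 32 * d ^ 2) / (a ^ 2 - 16 * d ^ 2)) := by
      field_simp; ring
    rw [e7, neg_sq]
  have h32 : (a : ℚ) ^ 2 - 32 * d ^ 2 ≠ 0 := by
    intro h1
    apply ne_32 hd hcad
    have : (a : ℚ) ^ 2 = 32 * d ^ 2 := by linarith
    exact_mod_cast this
  have hpne : ptX (Q + P0) * ptX (Q - P0) ≠ 0 := by
    rw [hprod']
    exact pow_ne_zero _ (div_ne_zero (mul_ne_zero (by norm_num) h32) had)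
  have hXR1 : ptX (Q + P0) ≠ 0 := left_ne_zero_of_mul hpne
  have hXR2 : ptX (Q - P0) ≠ 0 := right_ne_zero_of_mul hpne
  obtain ⟨p, q, hp, hq, hpq, e1⟩ : ∃ p q : ℤ, 0 < p ∧ 0 < q ∧ IsCoprime p q ∧
      ptX (Q + P0) = (p : ℚ) ^ 2 / (q : ℚ) ^ 2 := by
    obtain ⟨ν, hν⟩ := third hQ P0_ne0 hXne
    rw [hX, X0] at hν
    apply exists_frac hXR1 (t := ν * d / (8 * a))
    rw [div_pow, mul_pow, ← hν]
    field_simp
    ring
  obtain ⟨r, s, hr, hs, hrs, e2⟩ : ∃ p q : ℤ, 0 < p ∧ 0 < q ∧ IsCoprime p q ∧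
      ptX (Q - P0) = (p : ℚ) ^ 2 / (q : ℚ) ^ 2 := by
    obtain ⟨ν, hν⟩ := third hQ hP0' hXne'
    rw [hX, ptX_neg, X0, ← sub_eq_add_neg] at hν
    apply exists_frac hXR2 (t := ν * d / (8 * a))
    rw [div_pow, mul_pow, ← hν]
    field_simp
    ring
  have hp' : (0 : ℚ) < p := by exact_mod_cast hp
  have hq' : (0 : ℚ) < q := by exact_mod_cast hq
  have hr' : (0 : ℚ) < r := by exact_mod_cast hr
  have hs' : (0 : ℚ) < s := by exact_mod_cast hs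
  have i1 : p ^ 2 * r ^ 2 * (a ^ 2 - 16 * d ^ 2) ^ 2 =
      1024 * q ^ 2 * s ^ 2 * (a ^ 2 - 32 * d ^ 2) ^ 2 := by
    have : (p : ℚ) ^ 2 * r ^ 2 * (a ^ 2 - 16 * d ^ 2) ^ 2 =
        1024 * q ^ 2 * s ^ 2 * (a ^ 2 - 32 * d ^ 2) ^ 2 := by
      rw [e1, e2] at hprod'
      have h8 : ((p : ℚ) ^ 2 / q ^ 2 * (r ^ 2 / s ^ 2)) = (p ^ 2 * r ^ 2) / (q ^ 2 * s ^ 2) := by
        field_simp
      have h9 : (32 * ((a : ℚ) ^ 2 - 32 * d ^ 2) / (a ^ 2 - 16 * d ^ 2)) ^ 2 =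
          (32 * (a ^ 2 - 32 * d ^ 2)) ^ 2 / (a ^ 2 - 16 * d ^ 2) ^ 2 := div_pow _ _ _
      rw [h8, h9, div_eq_div_iff (by positivity) (pow_ne_zero _ had)] at hprod'
      linear_combination hprod'
    exact_mod_cast this
  have i2 : (p ^ 2 * s ^ 2 + r ^ 2 * q ^ 2) * (a ^ 2 - 16 * d ^ 2) ^ 2 =
      (-64 * a ^ 4 + 3648 * a ^ 2 * d ^ 2 - 32768 * d ^ 4) * (q ^ 2 * s ^ 2) := by
    have : ((p : ℚ) ^ 2 * s ^ 2 + r ^ 2 * q ^ 2) * (a ^ 2 - 16 * d ^ 2) ^ 2 =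
        (-64 * a ^ 4 + 3648 * a ^ 2 * d ^ 2 - 32768 * d ^ 4) * (q ^ 2 * s ^ 2) := by
      rw [e1, e2, e5] at hsum
      have h8 : ((p : ℚ) ^ 2 / q ^ 2 + r ^ 2 / s ^ 2) =
          (p ^ 2 * s ^ 2 + r ^ 2 * q ^ 2) / (q ^ 2 * s ^ 2) := by
        field_simp
      have h9 : 2 * ((-2 * (a : ℚ) ^ 2 / d ^ 2 + -32) * (-2 * a ^ 2 / d ^ 2 * -32 + 2048) +
          210 * (-2 * a ^ 2 / d ^ 2) * -32) / (-2 * (a ^ 2 - 16 * d ^ 2) / d ^ 2) ^ 2 =
          (-64 * a ^ 4 + 3648 * a ^ 2 * d ^ 2 - 32768 * d ^ 4) / (a ^ 2 - 16 * d ^ 2) ^ 2 := by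
        rw [div_eq_div_iff (by
          apply pow_ne_zero
          exact div_ne_zero (mul_ne_zero (by norm_num) had) (by positivity)) (pow_ne_zero _ had)]
        field_simp
        ring
      rw [h8, h9, div_eq_div_iff (by positivity) (pow_ne_zero _ had)] at hsum
      exact hsum
    exact_mod_cast this
  rcases H3 a d w p q r s M ha hd hcad h hne hp hq hr hs hpq hrs haM hdM i1 i2 with h3 | h3
  · exact ⟨Q + P0, hR1, Or.inl rfl, p, q, hp, hq, hpq, e1, h3⟩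
  · exact ⟨Q - P0, hR2, Or.inr rfl, r, s, hr, hs, hrs, e2, h3⟩

/-! ### the finite check -/

/-- integer square root by bits -/
def bs (N : ℕ) : ℕ → ℕ → ℕ
  | 0, r => r
  | n + 1, r => if (r + 2 ^ n) * (r + 2 ^ n) ≤ N then bs N n (r + 2 ^ n) else bs N n r

/-- `N` is strictly between two consecutive squares -/
def nsq (N : ℕ) : Bool := bs N 18 0 * bs N 18 0 < N && N < (bs N 18 0 + 1) * (bs N 18 0 + 1)

theorem nsq_spec {N : ℕ} (h : nsq N = true) (w : ℕ) (hw : w * w = N) : False := by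
  unfold nsq at h
  rw [Bool.and_eq_true, decide_eq_true_eq, decide_eq_true_eq] at h
  generalize bs N 18 0 = r at h
  obtain ⟨h1, h2⟩ := h
  rw [← hw] at h1 h2
  have h3 : r < w := by by_contra hc; push Not at hc; nlinarith
  have h4 : w < r + 1 := by by_contra hc; push Not at hc; nlinarith
  omega

/-- the check for `k = 1` -/
def chk1 (a d : ℕ) : Bool :=
  a == 0 || d == 0 || Nat.gcd a d != 1 || (a == 16 && d == 3) ||
    nsq (a ^ 4 + 105 * a ^ 2 * d ^ 2 + 2048 * d ^ 4)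

/-- the check for `k = -2` -/
def chk2 (a d : ℕ) : Bool :=
  a == 0 || d == 0 || Nat.gcd a d != 1 || (a == 4 && d == 1) ||
    105 * a ^ 2 * d ^ 2 ≤ 2 * a ^ 4 + 1024 * d ^ 4 ||
    nsq (105 * a ^ 2 * d ^ 2 - (2 * a ^ 4 + 1024 * d ^ 4))

theorem chk_all : ∀ a ∈ List.range 42, ∀ d ∈ List.range 42, (chk1 a d && chk2 a d) = true := by
  decide +kernel

theorem good_base : Good 41 := by
  intro k k' a d w hk ha hd hw hcad h haM hdM Q hQ hX
  obtain ⟨A, rfl⟩ := Int.eq_ofNat_of_zero_le ha.le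
  obtain ⟨D, rfl⟩ := Int.eq_ofNat_of_zero_le hd.le
  obtain ⟨w, rfl⟩ := Int.eq_ofNat_of_zero_le hw.le
  have hc := chk_all A (List.mem_range.2 (by omega)) D (List.mem_range.2 (by omega))
  rw [Bool.and_eq_true] at hc
  have hgcd : Nat.gcd A D = 1 := by
    have := Int.isCoprime_iff_gcd_eq_one.1 hcad
    simpa [Int.gcd] using this
  have hA0 : A ≠ 0 := by omega
  have hD0 : D ≠ 0 := by omega
  rcases hk with ⟨rfl, rfl⟩ | ⟨rfl, rfl⟩
  · have h1 := hc.1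
    unfold chk1 at h1
    simp only [Bool.or_eq_true, Bool.and_eq_true, beq_iff_eq, bne_iff_ne, ne_eq, hA0, hD0, hgcd,
      not_true, false_or] at h1
    rcases h1 with ⟨rfl, rfl⟩ | h1
    · have h2 : (2 : ℤ) • P0 ≠ 0 := smul_P0_ne two_ne_zero
      have h3 : ptX ((2 : ℤ) • P0) = 256 / 9 := zz_two
      rcases (ptX_eq_iff hQ h2).1 (by rw [hX, h3]; norm_num) with h4 | h4
      · exact ⟨2, h4⟩
      · exact ⟨-2, by rw [h4, neg_zsmul]⟩
    · exfalso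
      refine nsq_spec h1 w ?_
      have : (w : ℤ) * w = (A : ℤ) ^ 4 + 105 * A ^ 2 * D ^ 2 + 2048 * D ^ 4 := by
        linear_combination h
      exact_mod_cast this
  · have h1 := hc.2
    unfold chk2 at h1
    simp only [Bool.or_eq_true, Bool.and_eq_true, beq_iff_eq, bne_iff_ne, ne_eq, hA0, hD0, hgcd,
      not_true, false_or, decide_eq_true_eq] at h1
    have h5 : (w : ℤ) * w = 105 * (A : ℤ) ^ 2 * D ^ 2 - (2 * (A : ℤ) ^ 4 + 1024 * D ^ 4) := by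
      linear_combination h
    have h6 : w * w + (2 * A ^ 4 + 1024 * D ^ 4) = 105 * A ^ 2 * D ^ 2 := by
      have : (w : ℤ) * w + (2 * (A : ℤ) ^ 4 + 1024 * D ^ 4) = 105 * (A : ℤ) ^ 2 * D ^ 2 := by
        linear_combination h5
      exact_mod_cast this
    rcases h1 with (⟨rfl, rfl⟩ | h1) | h1
    · rcases (ptX_eq_iff hQ P0_ne0).1 (by rw [hX, X0]; norm_num) with h4 | h4
      · exact ⟨1, by rw [h4, one_zsmul]⟩
      · exact ⟨-1, by rw [h4, neg_zsmul, one_zsmul]⟩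
    · exfalso
      have : 0 < w * w := by
        have : 0 < w := by omega
        positivity
      omega
    · exfalso
      exact nsq_spec h1 w (by omega)

/-- squares -/
theorem good_of_half (H1 : S_HALVE) (H2 : S_HALVEH) {a d w M N : ℤ} (hG : Good N) (hN : 0 ≤ N)
    (ha : 0 < a) (hd : 0 < d)
    (hw : 0 < w) (hcad : IsCoprime a d) (h : w ^ 2 = a ^ 4 + 105 * a ^ 2 * d ^ 2 + 2048 * d ^ 4)
    (haM : a ≤ M) (hdM : d ≤ M) (hMN : 8192 * M < (N + 1) ^ 4) {Q : Pt} (hQ : Q ≠ 0)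
    (hX : ptX Q = a ^ 2 / d ^ 2) : ∃ n : ℤ, Q = n • P0 := by
  obtain ⟨k, k', A, B, v, hk, hA, hB, hv, hAB, h1, hb, Q', hQ', hX', hQQ⟩ :=
    halve_pt H1 H2 ha hd hw hcad h hQ hX
  obtain ⟨hb1, hb2⟩ := hb M haM hdM
  have hA' : A ≤ N := by
    have : A ^ 4 < (N + 1) ^ 4 := by linarith
    have := lt_of_pow_lt_pow_left₀ 4 (by linarith) this
    omega
  have hB' : B ≤ N := by
    have : B ^ 4 < (N + 1) ^ 4 := by linarith
    have := lt_of_pow_lt_pow_left₀ 4 (by linarith) this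
    omega
  obtain ⟨n, hn⟩ := hG k k' A B v hk hA hB hv hAB h1 hA' hB' Q' hQ' hX'
  rcases hQQ with h2 | h2
  · exact ⟨n + n, by rw [h2, hn, add_zsmul]⟩
  · exact ⟨-(n + n), by rw [h2, hn, neg_zsmul, add_zsmul]⟩

theorem good_step (H1 : S_HALVE) (H2 : S_HALVEH) (H3 : S_TRANSH) {N : ℤ} (hN : 41 ≤ N)
    (hG : Good N) : Good (N + 1) := by
  intro k k' a d w hk ha hd hw hcad h haM hdM Q hQ hX
  have h3 : (42 : ℤ) ^ 3 ≤ (N + 1) ^ 3 := pow_le_pow_left₀ (by norm_num) (by linarith) 3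
  have h4 : (N + 1) ^ 4 = (N + 1) ^ 3 * (N + 1) := by ring
  rcases hk with ⟨rfl, rfl⟩ | ⟨rfl, rfl⟩
  · apply good_of_half H1 H2 hG (by linarith) ha hd hw hcad (by linarith) haM hdM _ hQ
      (by rw [hX]; push_cast; ring)
    rw [h4]
    nlinarith
  · by_cases hne : a = 4 * d
    · subst hne
      have hd1 : d = 1 := by
        have h1 : IsUnit d := hcad.isUnit_of_dvd' ⟨4, by ring⟩ dvd_rfl
        rcases Int.isUnit_iff.1 h1 with h5 | h5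
        · exact h5
        · omega
      subst hd1
      exact good_base (-2) (-1024) (4 * 1) 1 w (Or.inr ⟨rfl, rfl⟩) ha hd hw hcad h (by norm_num)
        (by norm_num) Q hQ hX
    · obtain ⟨R, hR, hRQ, p, q, hp, hq, hpq, hXR, b1, b2⟩ := trans_pt H3 ha hd hcad
        (by linarith) hne haM hdM hQ (by rw [hX]; push_cast; ring)
      obtain ⟨w', hw', hw2⟩ := exists_w (k := 1) (k' := 2048) (Or.inl ⟨rfl, rfl⟩) hp hq hR
        (by rw [hXR]; push_cast; ring)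
      obtain ⟨n, hn⟩ : ∃ n : ℤ, R = n • P0 := by
        apply good_of_half H1 H2 (M := 8 * (N + 1)) hG (by linarith) hp hq hw' hpq (by linarith)
          b1 b2 _ hR hXR
        rw [h4]
        nlinarith
      rcases hRQ with h5 | h5
      · refine ⟨n - 1, ?_⟩
        rw [sub_zsmul, one_zsmul, ← hn, h5]; abel
      · refine ⟨n + 1, ?_⟩
        rw [add_zsmul, one_zsmul, ← hn, h5]; abel

theorem good_all (H1 : S_HALVE) (H2 : S_HALVEH) (H3 : S_TRANSH) (M : ℕ) : Good (M + 41) := by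
  induction M with
  | zero => simpa using good_base
  | succ n ih =>
    have := good_step H1 H2 H3 (by linarith [Int.natCast_nonneg n] : (41 : ℤ) ≤ (n : ℤ) + 41) ih
    have e : ((n + 1 : ℕ) : ℤ) + 41 = (n : ℤ) + 41 + 1 := by push_cast; ring
    rw [e]; exact this

end Gen

open Gen in
theorem gen (h1 : S_HALVE) (h2 : S_HALVEH) (h3 : S_TRANSH) : S_GEN := by
  intro z y hz h hsq
  obtain ⟨Q, hQ, hXz, hYy⟩ := exists_pt h
  have key : ∀ k k' : ℤ, KK k k' → ∀ p q : ℤ, 0 < p → 0 < q →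
      IsCoprime p q → z = k * (p : ℚ) ^ 2 / (q : ℚ) ^ 2 → ∃ n : ℤ, Q = n • P0 := by
    intro k k' hk p q hp hq hpq hzz
    obtain ⟨w, hw, hw2⟩ := exists_w hk hp hq hQ (by rw [hXz, hzz])
    have hG := good_all h1 h2 h3 (max p q).toNat
    have hm0 : 0 < max p q := lt_of_lt_of_le hp (le_max_left _ _)
    have hm : (((max p q).toNat : ℕ) : ℤ) = max p q := Int.toNat_of_nonneg hm0.le
    refine hG k k' p q w hk hp hq hw hpq hw2 ?_ ?_ Q hQ (by rw [hXz, hzz])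
    · rw [hm]; have := le_max_left p q; linarith
    · rw [hm]; have := le_max_right p q; linarith
  obtain ⟨n, hn⟩ : ∃ n : ℤ, Q = n • P0 := by
    rcases hsq with ⟨t, ht⟩ | ⟨t, ht⟩
    · obtain ⟨p, q, hp, hq, hpq, e⟩ := exists_frac hz (t := t) (by rw [ht]; ring)
      exact key 1 2048 (Or.inl ⟨rfl, rfl⟩) p q hp hq hpq (by rw [e]; push_cast; ring)
    · obtain ⟨p, q, hp, hq, hpq, e⟩ := exists_frac (z := z / (-2)) (div_ne_zero hz (by norm_num))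
        (t := t / 2) (by rw [div_pow, sq t, ← ht]; ring)
      refine key (-2) (-1024) (Or.inr ⟨rfl, rfl⟩) p q hp hq hpq ?_
      have : z = (-2) * (z / (-2)) := by ring
      rw [this, e]; push_cast; ring
  refine ⟨n, ?_, ?_, ?_⟩
  · rintro rfl
    rw [zero_zsmul] at hn
    exact hQ hn
  · rw [zz, ← hn, hXz]
  · rw [yy, ← hn, hYy]

end Pool.Agent.H686.TW

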