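import Pool.Agent.H715.TW.Stm
import Pool.Graph.R_seed8.H528R2.TestIff

/-!
# TW QSTEP
-/

set_option autoImplicit false

namespace Pool.Agent.H686.TW

open Pool.Agent.H528R2 (Vge Inert Test val_div)
open Pool.Agent.H715.TW

/-- type (a): the prime divides `M` or `M'` -/
theorem claimQ {M M' : ℤ} (hM : M ≠ 0) (hM' : M' ≠ 0) (hrel : RelK M M') {S : Finset ℕ}
    (hS : ∀ q ∈ S, q.Prime ∧ q ∣ M.natAbs) {t : ℕ} (ht : t.Prime) (hw : wt2 t ≠ 0)
    (hdvd : rk t ∣ 2 * ∏ q ∈ S, q)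
    (hodd : ((dd t ((2 * ∏ q ∈ S, q : ℕ) : ℤ) : ℕ) : ZMod 2) ≠ 0) :
    t ∣ M.natAbs ∨ t ∣ M'.natAbs := by
  by_contra hcon
  push Not at hcon
  obtain ⟨h1, h2⟩ := hcon
  have hFt := Fact.mk ht
  have hinert : t % 8 = 3 ∨ t % 8 = 5 := by
    by_contra h
    apply hw
    unfold wt2
    rw [if_neg h]
  have ht2 : t ≠ 2 := by omega
  have hprod : (∏ q ∈ S, q) ∣ M.natAbs := by
    refine Finset.prod_primes_dvd _ (fun q hq => (Nat.prime_iff.1 (hS q hq).1)) (fun q hq => (hS q hq).2)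
  have hn1 : ((2 * ∏ q ∈ S, q : ℕ) : ℤ) ≠ 0 := by
    have : (∏ q ∈ S, q) ≠ 0 := Finset.prod_ne_zero_iff.2 fun q hq => (hS q hq).1.ne_zero
    have : (2 * ∏ q ∈ S, q : ℕ) ≠ 0 := by positivity
    exact_mod_cast this
  have hn2 : 2 * M ≠ 0 := mul_ne_zero two_ne_zero hM
  have hn3 : 2 * M' ≠ 0 := mul_ne_zero two_ne_zero hM'
  have nd2 : ¬ t ∣ 2 := fun h => ht2 ((Nat.prime_dvd_prime_iff_eq ht Nat.prime_two).1 h)
  have hv1 : padicValInt t ((2 * ∏ q ∈ S, q : ℕ) : ℤ) = 0 := by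
    rw [padicValInt.of_nat]
    apply padicValNat.eq_zero_of_not_dvd
    intro h
    rcases ht.dvd_mul.1 h with h | h
    · exact nd2 h
    · exact h1 (h.trans hprod)
  have hv : ∀ m : ℤ, ¬ t ∣ m.natAbs → padicValInt t (2 * m) = 0 := by
    intro m hm
    unfold padicValInt
    apply padicValNat.eq_zero_of_not_dvd
    intro h
    rw [Int.natAbs_mul] at h
    rcases ht.dvd_mul.1 h with h | h
    · exact nd2 h
    · exact hm h
  have hd1 : (rk t : ℤ) ∣ ((2 * ∏ q ∈ S, q : ℕ) : ℤ) := by exact_mod_cast hdvd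
  have hd2 : (rk t : ℤ) ∣ 2 * M := by
    have h3 : (2 * ∏ q ∈ S, q) ∣ (2 * M).natAbs := by
      rw [Int.natAbs_mul]
      exact Nat.mul_dvd_mul_left 2 hprod
    exact Int.natCast_dvd.2 (hdvd.trans h3)
  have e1 := dd_eq ht hn1 hd1
  have e2 := dd_eq ht hn2 hd2
  rw [hv1] at e1
  rw [hv M h1] at e2
  have e12 : dd t (2 * M) = dd t ((2 * ∏ q ∈ S, q : ℕ) : ℤ) := by omega
  rw [← e12] at hodd
  have hodd' : Odd (dd t (2 * M)) := by
    by_contra h
    rw [Nat.not_odd_iff_even] at h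
    apply hodd
    obtain ⟨r, hr⟩ := h
    rw [hr]
    push_cast
    exact CharTwo.add_self_eq_zero _
  obtain ⟨v1, v2, v3⟩ := val_zz ht hn2 hd2
  have hz := zz_ne0 hn2
  have hy := yy_ne hn2
  have hN : zz (2 * M) / yy (2 * M) ≠ 0 := div_ne_zero hz hy
  have htest := (Pool.Agent.H528R2.test_iff hN).1 hrel t ⟨ht, hinert⟩ (by
    rw [val_div ht hz hy, v1, v2]
    obtain ⟨r, hr⟩ := hodd'
    refine ⟨r, ?_⟩
    rw [hr]; push_cast; ring)
  have hz' := zz_ne0 hn3
  have h5 := htest.le (div_ne_zero hz hz')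
  rw [val_div ht hz hz', v1] at h5
  have hd3 : (rk t : ℤ) ∣ 2 * M' := by
    rw [dvd_iff ht hn3]
    omega
  obtain ⟨v1', -, -⟩ := val_zz ht hn3 hd3
  have e3 := dd_eq ht hn3 hd3
  rw [hv M' h2] at e3
  omega

theorem qstep (hg : S_GL) (hs : S_SUM2) : S_QSTEP := by
  classical
  intro M M' hM hM' hrel
  have h2 : Fact (Nat.Prime 2) := ⟨Nat.prime_two⟩
  set T : Finset ℕ := M.natAbs.primeFactors.filter
    (fun q => q ≠ 2 ∧ (q % 7 = 2 ∨ q % 7 = 3 ∨ q % 7 = 4 ∨ q % 7 = 5)) with hT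
  have hTc : T.card = cL M := rfl
  by_cases ha : T = ∅
  · have : cL M = 0 := by rw [← hTc, ha]; rfl
    rw [this]
    simp
  obtain ⟨q₀, hq₀⟩ := Finset.nonempty_iff_ne_empty.2 ha
  have hTp : ∀ q ∈ T, q.Prime ∧ q ≠ 2 ∧ (q % 7 = 2 ∨ q % 7 = 3 ∨ q % 7 = 4 ∨ q % 7 = 5) ∧
      q ∣ M.natAbs := by
    intro q hq
    rw [hT, Finset.mem_filter, Nat.mem_primeFactors] at hq
    exact ⟨hq.1.1, hq.2.1, hq.2.2, hq.1.2.1⟩
  -- nonzero alternating sums
  set P : Finset ℕ → Prop := fun S =>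
    ∑ U ∈ S.powerset, (-1) ^ (S.card - U.card) * prw 2 wt2 ((2 * ∏ q ∈ U, q : ℕ) : ℤ) ≠ 0 with hP
  have hchoice : ∀ S : Finset ℕ, ∃ S' : Finset ℕ, S ⊆ T.erase q₀ →
      S' ⊆ T ∧ S'.erase q₀ = S ∧ P S' := by
    intro S
    by_cases hST : S ⊆ T.erase q₀
    · have hq₀S : q₀ ∉ S := fun h => (Finset.mem_erase.1 (hST h)).1 rfl
      have hins : insert q₀ S ⊆ T := by
        intro q hq
        rcases Finset.mem_insert.1 hq with rfl | hq
        · exact hq₀
        · exact (Finset.mem_erase.1 (hST hq)).2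
      rcases hs S q₀ hq₀S (fun q hq => by
        have := hTp q (hins hq)
        exact ⟨this.1, this.2.1, this.2.2.1⟩) with h | h
      · exact ⟨S, fun _ => ⟨fun q hq => (Finset.mem_erase.1 (hST hq)).2,
          Finset.erase_eq_of_notMem hq₀S, h⟩⟩
      · exact ⟨insert q₀ S, fun _ => ⟨hins, Finset.erase_insert hq₀S, h⟩⟩
    · exact ⟨∅, fun h => absurd h hST⟩
  choose G hG using hchoice
  set 𝒢 : Finset (Finset ℕ) := (T.erase q₀).powerset.image G with h𝒢
  have hcard : 𝒢.card = 2 ^ (cL M - 1) := by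
    rw [h𝒢, Finset.card_image_of_injOn, Finset.card_powerset, Finset.card_erase_of_mem hq₀, hTc]
    intro S hS S' hS' hSS
    have h3 := (hG S (Finset.mem_powerset.1 hS)).2.1
    have h4 := (hG S' (Finset.mem_powerset.1 hS')).2.1
    rw [← h3, ← h4, hSS]
  -- the two types
  set PK : ℤ → Finset ℕ := fun M => M.natAbs.primeFactors.filter (fun q => q % 8 = 3 ∨ q % 8 = 5)
    with hPK
  set R : ℕ → Finset ℕ := fun t => (rk t).primeFactors \ (2 : ℕ).primeFactors with hR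
  have hsub : 𝒢 ⊆ ((PK M).image R ∪ (PK M').image R) ∪ T.image (fun t => insert t (R t)) := by
    intro S' hS'
    obtain ⟨S, hS, rfl⟩ := Finset.mem_image.1 hS'
    obtain ⟨hGT, -, hGP⟩ := hG S (Finset.mem_powerset.1 hS)
    obtain ⟨t, ht, hw, hdvd, hcase⟩ := hg 2 h2 wt2 2 (G S) two_ne_zero (fun q hq => by
      have := hTp q (hGT hq)
      exact ⟨this.1, fun h => this.2.1 ((Nat.prime_dvd_prime_iff_eq this.1 Nat.prime_two).1 h)⟩) hGP
    have hinert : t % 8 = 3 ∨ t % 8 = 5 := by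
      by_contra h
      apply hw
      unfold wt2
      rw [if_neg h]
    rcases hcase with ⟨h3, h4⟩ | ⟨h3, h4⟩
    · rw [Finset.mem_union, Finset.mem_union]
      left
      rcases claimQ hM hM' hrel (fun q hq => ⟨(hTp q (hGT hq)).1, (hTp q (hGT hq)).2.2.2⟩) ht hw
        hdvd h4 with h5 | h5
      · left
        refine Finset.mem_image.2 ⟨t, ?_, h3⟩
        rw [hPK, Finset.mem_filter, Nat.mem_primeFactors]
        exact ⟨⟨ht, h5, Int.natAbs_ne_zero.2 hM⟩, hinert⟩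
      · right
        refine Finset.mem_image.2 ⟨t, ?_, h3⟩
        rw [hPK, Finset.mem_filter, Nat.mem_primeFactors]
        exact ⟨⟨ht, h5, Int.natAbs_ne_zero.2 hM'⟩, hinert⟩
    · rw [Finset.mem_union]
      right
      refine Finset.mem_image.2 ⟨t, hGT h3, ?_⟩
      show insert t (R t) = G S
      rw [show R t = (G S).erase t from h4, Finset.insert_erase h3]
  have h6 := Finset.card_le_card hsub
  have h7 := Finset.card_union_le ((PK M).image R ∪ (PK M').image R)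
    (T.image (fun t => insert t (R t)))
  have h8 := Finset.card_union_le ((PK M).image R) ((PK M').image R)
  have h9 : ((PK M).image R).card ≤ cK M := Finset.card_image_le
  have h10 : ((PK M').image R).card ≤ cK M' := Finset.card_image_le
  have h11 : (T.image (fun t => insert t (R t))).card ≤ cL M := Finset.card_image_le
  rw [hcard] at h6
  omega

end Pool.Agent.H686.TW

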